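import Mathlib

/-!
Walks on a star versus disjoint time intervals.
-/

namespace Pool.Agent.Lead.Star

open Finset

def Walk (n t : ℕ) (ρ : ℕ → ℕ → Prop) : Prop :=
  ∃ w : ℕ → ℕ, w 0 = 0 ∧ (∀ τ < t, w (τ + 1) = w τ ∨ (w τ = 0 ∧ ρ (w (τ + 1)) τ) ∨
    (w (τ + 1) = 0 ∧ ρ (w τ) τ)) ∧ ∀ v < n, ∃ τ ≤ t, w τ = v

theorem Walk.ex {n t ρ} (h : Walk n t ρ) : ∃ (a b : ℕ → ℕ) (z : ℕ),
    (∀ j ∈ Ico 1 n, a j < b j ∧ b j ≤ t ∧ ρ j (a j) ∧ (j = z → b j = t) ∧
      (j ≠ z → a j + 2 ≤ b j ∧ ρ j (b j - 1))) ∧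
    ∀ j ∈ Ico 1 n, ∀ k ∈ Ico 1 n, j ≠ k → b j ≤ a k ∨ b k ≤ a j := by
  obtain ⟨w, h0, hs, hv⟩ := h
  have key : ∀ j ∈ Ico 1 n, ∃ a l, a < l ∧ l ≤ t ∧ w a = 0 ∧ ρ j a ∧
      (∀ σ, a < σ → σ ≤ l → w σ = j) ∧ (l < t → ρ j l) ∧ (w t = j → l = t) := by
    intro j hj
    rw [mem_Ico] at hj
    obtain ⟨τ, h1, h2⟩ := hv j hj.2
    have l1 := Nat.findGreatest_spec (P := fun σ => w σ = j) h1 h2
    have l2 := Nat.findGreatest_le (P := fun σ => w σ = j) t
    have l3 := fun k => @Nat.findGreatest_is_greatest k (fun σ => w σ = j) _ t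
    generalize Nat.findGreatest (fun σ => w σ = j) t = l at l1 l2 l3
    have a1 := Nat.findGreatest_spec (P := fun σ => w σ ≠ j) (Nat.zero_le l) (by omega)
    have a2 := Nat.findGreatest_le (P := fun σ => w σ ≠ j) l
    have a3 := fun k => @Nat.findGreatest_is_greatest k (fun σ => w σ ≠ j) _ l
    generalize Nat.findGreatest (fun σ => w σ ≠ j) l = a at a1 a2 a3
    simp only [not_not] at a1 a3 l1 l3
    have a4 : a < l := lt_of_le_of_ne a2 fun e => a1 (e ▸ l1)
    have a5 := a3 (a + 1) (by omega) a4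
    have a6 : w a = 0 ∧ ρ j a := by
      rcases hs a (by omega) with e | e | e
      · omega
      · exact a5 ▸ e
      · omega
    refine ⟨a, l, a4, l2, a6.1, a6.2, a3, fun h => ?_, fun h => ?_⟩
    · have := l3 (l + 1) (by omega) h
      rcases hs l h with e | e | e
      · omega
      · omega
      · exact l1 ▸ e.2
    · by_contra e
      exact l3 t (by omega) le_rfl h
  choose! a l k1 k2 k3 k4 k5 k6 k7 using key
  refine ⟨a, fun j => min (l j + 1) t, w t, fun j hj => ?_, fun j hj k hk e => ?_⟩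
  · have := k1 j hj
    have := k2 j hj
    beta_reduce
    refine ⟨by omega, by omega, k4 j hj, fun e => by have := k7 j hj e.symm; omega, fun e => ?_⟩
    have : l j < t := lt_of_le_of_ne (k2 j hj) fun e' => e (by
      rw [← e']; exact (k5 j hj _ (k1 j hj) le_rfl).symm)
    refine ⟨by omega, ?_⟩
    rw [show min (l j + 1) t - 1 = l j by omega]
    exact k6 j hj this
  · have j1 := k5 j hj _ (k1 j hj) le_rfl
    have j2 := k5 k hk _ (k1 k hk) le_rfl
    have j3 := k5 j hj (l k)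
    have j4 := k5 k hk (l j)
    have j5 : l j ≠ a k := fun e' => by have := k3 k hk; rw [← e'] at this; rw [mem_Ico] at hj; omega
    have j6 : l k ≠ a j := fun e' => by have := k3 j hj; rw [← e'] at this; rw [mem_Ico] at hk; omega
    simp only
    omega

theorem walk_of {n t : ℕ} {ρ : ℕ → ℕ → Prop} (a b : ℕ → ℕ)
    (h : ∀ j ∈ Ico 1 n, a j + 2 ≤ b j ∧ a j < t ∧ ρ j (a j) ∧ ρ j (b j - 1))
    (hd : ∀ j ∈ Ico 1 n, ∀ k ∈ Ico 1 n, j ≠ k → b j ≤ a k ∨ b k ≤ a j) :
    ∃ w : ℕ → ℕ, w 0 = 0 ∧ (∀ τ, w (τ + 1) = w τ ∨ (w τ = 0 ∧ w (τ + 1) ∈ Ico 1 n ∧ ρ (w (τ + 1)) τ) ∨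
      (w (τ + 1) = 0 ∧ w τ ∈ Ico 1 n ∧ ρ (w τ) τ)) ∧ ∀ v < n, ∃ τ ≤ t, w τ = v := by
  have key : ∀ τ, ∃ v, (∀ j ∈ Ico 1 n, a j < τ → τ < b j → v = j) ∧
      (v = 0 ∨ v ∈ Ico 1 n ∧ a v < τ ∧ τ < b v) := by
    intro τ
    by_cases e : ∃ v ∈ Ico 1 n, a v < τ ∧ τ < b v
    · obtain ⟨v, h1, h2⟩ := e
      refine ⟨v, fun j hj h3 h4 => ?_, Or.inr ⟨h1, h2⟩⟩
      by_contra e
      have := hd v h1 j hj e
      omega
    · exact ⟨0, fun j hj h3 h4 => absurd ⟨j, hj, h3, h4⟩ e, Or.inl rfl⟩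
  choose w w1 w2 using key
  have w0 : w 0 = 0 := by have := w2 0; omega
  refine ⟨w, w0, fun τ => ?_, fun v hv => ?_⟩
  · rcases w2 (τ + 1) with e | ⟨e1, e2, e3⟩
    · rcases w2 τ with e' | ⟨e1, e2, e3⟩
      · omega
      · by_cases e4 : τ + 1 < b (w τ)
        · exact Or.inl (w1 _ _ e1 (by omega) e4)
        · refine Or.inr (Or.inr ⟨e, e1, ?_⟩)
          have := (h _ e1).2.2.2
          rwa [show b (w τ) - 1 = τ by omega] at this
    · by_cases e4 : a (w (τ + 1)) < τ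
      · exact Or.inl (w1 _ _ e1 e4 (by omega)).symm
      · refine Or.inr (Or.inl ⟨?_, e1, ?_⟩)
        · rcases w2 τ with e' | ⟨f1, f2, f3⟩
          · exact e'
          · have := hd _ f1 _ e1 fun e => by rw [e] at f2; omega
            omega
        · have := (h _ e1).2.2.1
          rwa [show a (w (τ + 1)) = τ by omega] at this
  · rcases v.eq_zero_or_pos with rfl | h0
    · exact ⟨0, Nat.zero_le _, w0⟩
    · have hv' : v ∈ Ico 1 n := mem_Ico.2 ⟨h0, hv⟩
      have := h v hv'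
      exact ⟨a v + 1, by omega, w1 _ _ hv' (by omega) (by omega)⟩

theorem sum_len {s : Finset ℕ} {a b : ℕ → ℕ} {x y : ℕ} (h : ∀ j ∈ s, x ≤ a j ∧ b j ≤ y)
    (hd : ∀ j ∈ s, ∀ k ∈ s, j ≠ k → b j ≤ a k ∨ b k ≤ a j) : ∑ j ∈ s, (b j - a j) ≤ y - x := by
  rw [← Nat.card_Ico, sum_congr rfl fun j _ => (Nat.card_Ico (a j) (b j)).symm, ← card_biUnion]
  · refine card_le_card fun σ hσ => ?_
    obtain ⟨j, hj, h1⟩ := mem_biUnion.1 hσ
    have := h j hj
    rw [mem_Ico] at h1 ⊢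
    omega
  · intro j hj k hk e
    have := hd j hj k hk e
    refine disjoint_left.2 fun σ h1 h2 => ?_
    rw [mem_Ico] at h1 h2
    omega

theorem tight {J : Finset ℕ} {t V z : ℕ} {a b : ℕ → ℕ} (sh : ℕ → Prop) [DecidablePred sh]
    (h : ∀ j ∈ J, a j < b j ∧ b j ≤ t ∧ (j = z → b j = t) ∧
      (j ≠ z → a j + 2 ≤ b j ∧ (sh j → a j + 3 ≤ b j)))
    (hd : ∀ j ∈ J, ∀ k ∈ J, j ≠ k → b j ≤ a k ∨ b k ≤ a j) (hV : #(J.filter sh) = V + 1)
    (ht : t + 1 = 2 * #J + V) : ∃ S : ℕ → ℕ, Monotone S ∧ (∀ τ, S τ ≤ V) ∧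
      ∀ k ∈ J, ¬ sh k → k ≠ z ∧ b k = a k + 2 ∧ a k % 2 = S (a k) % 2 := by
  let c : ℕ → ℕ := fun j => 2 + if sh j then 1 else 0
  have sc : ∀ s : Finset ℕ, ∑ j ∈ s, c j = 2 * #s + #(s.filter sh) := fun s => by
    simp only [c]
    rw [sum_add_distrib, sum_const, smul_eq_mul, mul_comm, card_filter]
  have le : ∀ j ∈ J.erase z, c j ≤ b j - a j := fun j hj => by
    have := (h j (mem_of_mem_erase hj)).2.2.2 (ne_of_mem_erase hj)
    simp only [c]
    split_ifs with e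
    · have := this.2 e; omega
    · omega
  have s1 := sum_le_sum le
  have s2 := sum_len (x := 0) (y := t) (fun j hj => ⟨Nat.zero_le _, (h j hj).2.1⟩) hd
  have s3 := sc J
  have hz : z ∈ J := by
    by_contra hz
    rw [erase_eq_of_notMem hz] at s1
    omega
  rw [← add_sum_erase _ _ hz] at s2 s3
  have s4 := (h z hz).1
  have s5 := (h z hz).2.2.1 rfl
  have zs : sh z := by
    by_contra e
    simp only [c, if_neg e] at s3
    simp only [c] at s1
    omega
  have s6 : c z = 3 := by simp [c, zs]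
  have eq := (sum_eq_sum_iff_of_le le).1 (by omega)
  refine ⟨fun τ => #(((J.erase z).filter fun j => a j < τ).filter sh), fun τ τ' e => ?_, fun τ => ?_,
    fun k hk e => ?_⟩
  · exact card_le_card (filter_subset_filter _ (monotone_filter_right _ fun j _ h => h.trans_le e))
  · have : #(((J.erase z).filter fun j => a j < τ).filter sh) ≤ #((J.filter sh).erase z) :=
      card_le_card fun j hj => by
        simp only [mem_filter, mem_erase] at hj ⊢
        tauto
    rw [card_erase_of_mem (mem_filter.2 ⟨hz, zs⟩)] at this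
    beta_reduce
    omega
  · have kz : k ≠ z := fun e' => e (e' ▸ zs)
    have k1 := eq k (mem_erase.2 ⟨kz, hk⟩)
    have k2 := h k hk
    simp only [c, if_neg e] at k1
    refine ⟨kz, by omega, ?_⟩
    have t1 := sum_filter_add_sum_filter_not (J.erase z) (fun j => a j < a k) fun j => b j - a j
    have t2 := sum_len (s := (J.erase z).filter fun j => a j < a k) (a := a) (b := b) (x := 0)
      (y := a k) (fun j hj => by
        simp only [mem_filter, mem_erase] at hj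
        have := hd j hj.1.2 k hk fun e => by rw [e] at hj; omega
        omega) fun j hj k hk => hd j (mem_of_mem_erase (mem_of_mem_filter _ hj)) k
          (mem_of_mem_erase (mem_of_mem_filter _ hk))
    have t3 := sum_len (s := (J.erase z).filter fun j => ¬ a j < a k) (a := a) (b := b) (x := a k)
      (y := a z) (fun j hj => by
        simp only [mem_filter, mem_erase] at hj
        have := hd j hj.1.2 z hz hj.1.1
        have := h j hj.1.2
        omega) fun j hj k hk => hd j (mem_of_mem_erase (mem_of_mem_filter _ hj)) k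
          (mem_of_mem_erase (mem_of_mem_filter _ hk))
    have t4 := sc ((J.erase z).filter fun j => a j < a k)
    rw [sum_congr rfl fun j hj => eq j (mem_of_mem_filter _ hj)] at t4
    have t5 := hd k hk z hz kz
    simp only
    omega

end Pool.Agent.Lead.Star
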