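import Pool.Agent.H38.NP.Defs

/-!
Foremost coverage of a star whose edges recur within a bounded time.
-/

namespace Pool.Agent.Lead.Star

open Pool.Agent.H38.NP

/-- Adjacency matrices. -/
abbrev Mat := List (List Bool)

/-- The entry `(u, v)` of an adjacency matrix. -/
def adj (A : Mat) (u v : ℕ) : Bool := (A.getD u []).getD v false

/-- The subgraph present at time `τ` (after the end of the schedule: all of `G`). -/
def cur (G : Mat) : List (Mat × Bin) → ℕ → Mat
  | [], _ => G
  | x :: S, τ => if τ < x.2.val then x.1 else cur G S (τ - x.2.val)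

/-- An instance: graph `G`, start vertex `s`, deadline `t`, schedule with binary durations. -/
abbrev Inst := Mat × ℕ × Bin × List (Mat × Bin)

/-- `A` is an `n × n` matrix. -/
def Sq (n : ℕ) (A : Mat) : Prop := A.length = n ∧ ∀ r ∈ A, r.length = n

/-- `G` is the star with centre `0` and leaves `1, …, n - 1`, the start is a vertex, the schedule
lists symmetric subgraphs of `G` and lasts until the deadline, and every edge of `G` is present at
least once in every window of `Δ` consecutive times. -/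
def Valid (Δ : ℕ) (p : Inst) : Prop :=
  Sq p.1.length p.1 ∧
  (∀ u v, adj p.1 u v = true ↔ u < p.1.length ∧ v < p.1.length ∧ u ≠ v ∧ (u = 0 ∨ v = 0)) ∧
  p.2.1 < p.1.length ∧
  (∀ x ∈ p.2.2.2, Sq p.1.length x.1 ∧ ∀ u v, adj x.1 u v = adj x.1 v u ∧
    (adj x.1 u v = true → adj p.1 u v = true)) ∧
  p.2.2.1.val ≤ (p.2.2.2.map fun x => x.2.val).sum ∧
  ∀ u v, adj p.1 u v = true → ∀ τ, ∃ σ, τ ≤ σ ∧ σ < τ + Δ ∧ adj (cur p.1 p.2.2.2 σ) u v = true

/-- The agent can visit all vertices by the deadline. -/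
def Cover (p : Inst) : Prop :=
  ∃ w : ℕ → ℕ, w 0 = p.2.1 ∧
    (∀ τ < p.2.2.1.val, w (τ + 1) = w τ ∨ adj (cur p.1 p.2.2.2 τ) (w τ) (w (τ + 1)) = true) ∧
    ∀ v < p.1.length, ∃ τ ≤ p.2.2.1.val, w τ = v

end Pool.Agent.Lead.Star
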