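import Pool.Agent.Lead.Star.Core
import Pool.Agent.Lead.Star.Defs
import Pool.Agent.H38.ER.Big

/-!
Foremost coverage of a star is NP-hard when every edge recurs within two steps.
-/

namespace Pool.Agent.Lead.Star

open Pool.Agent.H38.NP Pool.Agent.H38.ER Finset

abbrev Cl := Lit × Lit × Lit

def has (C : Cl) (i : ℕ) (s : Bool) : Bool :=
  decide (C.1 = (i, s)) || decide (C.2.1 = (i, s)) || decide (C.2.2 = (i, s))

def cl (m : ℕ) (C : Cl) (c i o : ℕ) : Bool :=
  decide (o < 2) || decide (o % 2 =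
    ((has C i false && decide (o ≤ 2 * c + 5)) || (has C i true && decide (2 * m + 2 * c + 4 < o))).toNat)

variable (φ : List Cl)

def W : ℕ := 2 * φ.length + 4
def Z : ℕ := 2 * W φ + 1
def V : ℕ := (φ.map fun C => C.1.1 + C.2.1.1 + C.2.2.1).sum + 1

def av (j τ : ℕ) : Bool :=
  cond (decide (3 ≤ j) && decide (j < 3 + φ.length))
    (cl φ.length (φ.getD (j - 3) ((0, false), (0, false), (0, false))) (j - 3) (τ / Z φ) (τ % Z φ))
    (cond (decide ((j - 1) % W φ = 0))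
      (decide ((τ + (j - 1) / W φ) % 2 = (decide ((j - 1) / W φ * Z φ < τ)).toNat))
      (cond (decide ((j - 1) % W φ = 1)) (decide ((τ + (j - 1) / W φ) % 2 = 0)) true))

def mat (n : ℕ) (f : ℕ → Bool) : Mat := (List.range n).map fun u => (List.range n).map fun v =>
  (decide (u = 0) && decide (0 < v) && f v) || (decide (v = 0) && decide (0 < u) && f u)

def red : Inst := (mat (V φ * W φ + 3) fun _ => true, 0, ⟨V φ * Z φ + 3⟩,
  (List.range (V φ * Z φ + 3)).map fun τ => (mat (V φ * W φ + 3) fun j => av φ j τ, ⟨1⟩))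

theorem pt_red : PT red := by
  unfold red mat av cl has V Z W
  fun_prop

theorem adj_mat {n f u v} : adj (mat n f) u v = true ↔ u < n ∧ v < n ∧
    ((u = 0 ∧ 0 < v ∧ f v = true) ∨ (v = 0 ∧ 0 < u ∧ f u = true)) := by
  unfold adj mat
  by_cases hu : u < n
  · by_cases hv : v < n
    · simp [hu, hv, and_assoc]
    · simp [hu, hv]
  · simp [hu]

theorem sq_mat {n f} : Sq n (mat n f) := ⟨by simp [mat], fun r hr => by
  obtain ⟨u, -, rfl⟩ := List.mem_map.1 hr
  simp⟩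

theorem cur_map (G : Mat) (f : ℕ → Mat) (k s τ : ℕ) :
    cur G ((List.range' s k).map fun τ => (f τ, ⟨1⟩)) τ = if τ < k then f (s + τ) else G := by
  induction k generalizing s τ with
  | zero => simp [cur]
  | succ k ih =>
    rw [List.range'_succ, List.map_cons, cur, ih]
    rcases τ with _ | τ
    · simp
    · simp [add_assoc, add_comm 1 τ]

theorem cur_red (τ : ℕ) : cur (red φ).1 (red φ).2.2.2 τ =
    mat (V φ * W φ + 3) fun j => decide (V φ * Z φ + 3 ≤ τ) || av φ j τ := by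
  simp only [red, List.range_eq_range']
  rw [cur_map]
  split_ifs with h
  · simp [not_le.2 h]
  · simp [not_lt.1 h]

theorem dm (τ : ℕ) : τ % Z φ < Z φ ∧ (((τ + 1) % Z φ = 0 ∧ τ % Z φ + 1 = Z φ) ∨
    ((τ + 1) / Z φ = τ / Z φ ∧ (τ + 1) % Z φ = τ % Z φ + 1)) := by
  have h := Nat.mod_lt τ (show 0 < Z φ from Nat.succ_pos _)
  refine ⟨h, ?_⟩
  have h1 := Nat.div_add_mod τ (Z φ)
  have h2 := Nat.div_add_mod (τ + 1) (Z φ)
  by_cases e : (τ + 1) % Z φ = 0
  · refine Or.inl ⟨e, ?_⟩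
    by_contra e'
    rw [Nat.add_mod, Nat.mod_eq_of_lt (show 1 < Z φ by unfold Z W; omega),
      Nat.mod_eq_of_lt (by omega)] at e
    omega
  · have := Nat.succ_div_of_mod_ne_zero e
    rw [this] at h2
    exact Or.inr ⟨this, by omega⟩

theorem cl_two (m C c i o) : cl m C c i o = true ∨ cl m C c i (o + 1) = true := by
  unfold cl
  cases has C i false <;> cases has C i true <;> simp only [Bool.or_eq_true, decide_eq_true_eq,
    Bool.false_and, Bool.true_and, Bool.false_or, Bool.or_false, Bool.toNat_false]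
  · omega
  · by_cases h1 : 2 * m + 2 * c + 4 < o <;> by_cases h2 : 2 * m + 2 * c + 4 < o + 1 <;>
      simp [h1, h2] <;> omega
  · by_cases h1 : o ≤ 2 * c + 5 <;> by_cases h2 : o + 1 ≤ 2 * c + 5 <;> simp [h1, h2] <;> omega
  · by_cases h1 : 2 * m + 2 * c + 4 < o <;> by_cases h2 : 2 * m + 2 * c + 4 < o + 1 <;>
      by_cases h3 : o ≤ 2 * c + 5 <;> by_cases h4 : o + 1 ≤ 2 * c + 5 <;>
      simp [h1, h2, h3, h4] <;> omega

theorem cl_both {m C c i o} (h : cl m C c i o = true) (h' : cl m C c i (o + 1) = true) :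
    o < 2 ∨ (has C i false = true ∧ o = 2 * c + 5) ∨ (has C i true = true ∧ o = 2 * m + 2 * c + 4) := by
  unfold cl at h h'
  revert h h'
  cases has C i false <;> cases has C i true <;>
    by_cases h1 : 2 * m + 2 * c + 4 < o <;> by_cases h2 : 2 * m + 2 * c + 4 < o + 1 <;>
      by_cases h3 : o ≤ 2 * c + 5 <;> by_cases h4 : o + 1 ≤ 2 * c + 5 <;>
      simp [h1, h2, h3, h4] <;> omega

theorem cl_neg {m C c i} (hc : c < m) (h : has C i false = true) :
    cl m C c i (2 * c + 5) = true ∧ cl m C c i (2 * c + 6) = true := by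
  simp [cl, h, show ¬ 2 * m + 2 * c + 4 < 2 * c + 6 by omega]

theorem cl_pos {m C c i} (hc : c < m) (h : has C i true = true) :
    cl m C c i (2 * m + 2 * c + 4) = true ∧ cl m C c i (2 * m + 2 * c + 5) = true := by
  simp [cl, h, show ¬ 2 * m + 2 * c + 4 ≤ 2 * c + 5 by omega]
  omega

theorem mulZ (i : ℕ) : i * Z φ = 2 * (i * W φ) + i := by unfold Z; ring

theorem av_two (j τ) : av φ j τ = true ∨ av φ j (τ + 1) = true := by
  unfold av
  cases (decide (3 ≤ j) && decide (j < 3 + φ.length))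
  · have := mulZ φ ((j - 1) / W φ)
    by_cases h : (j - 1) % W φ = 0
    · by_cases h1 : (j - 1) / W φ * Z φ < τ <;> by_cases h2 : (j - 1) / W φ * Z φ < τ + 1 <;>
        simp [h, h1, h2] <;> omega
    · by_cases h' : (j - 1) % W φ = 1 <;> simp [h, h']
      omega
  · rcases (dm φ τ).2 with h | h
    · simp [h.1, cl]
    · simpa [h.1, h.2] using cl_two _ _ _ _ _

theorem valid_red {Δ : ℕ} (h : 2 ≤ Δ) : Valid Δ (red φ) := by
  have e : (red φ).1.length = V φ * W φ + 3 := by simp [red, mat]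
  refine ⟨e ▸ sq_mat, fun u v => ?_, by rw [e]; simp [red], fun x hx => ?_, by simp [red, Function.comp_def],
    fun u v huv τ => ?_⟩
  · rw [e]
    simp only [red, adj_mat]
    simp only [and_true]
    omega
  · obtain ⟨τ, -, rfl⟩ := List.mem_map.1 hx
    refine ⟨e ▸ sq_mat, fun u v => ⟨Bool.eq_iff_iff.2 ?_, ?_⟩⟩ <;> simp only [red, adj_mat] <;> tauto
  · simp only [red, adj_mat] at huv
    simp only [cur_red, adj_mat, Bool.or_eq_true]
    rcases av_two φ (u + v) τ with k | k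
    · refine ⟨τ, le_rfl, by omega, ?_⟩
      rcases huv with ⟨a, b, ⟨rfl, c, -⟩ | ⟨rfl, c, -⟩⟩ <;> simp_all
    · refine ⟨τ + 1, by omega, by omega, ?_⟩
      rcases huv with ⟨a, b, ⟨rfl, c, -⟩ | ⟨rfl, c, -⟩⟩ <;> simp_all

theorem av_cl {c} (hc : c < φ.length) (τ) : av φ (3 + c) τ = cl φ.length φ[c] c (τ / Z φ) (τ % Z φ) := by
  simp [av, hc]

theorem id_dm {i r : ℕ} (hr : r < W φ) : (i * W φ + r) / W φ = i ∧ (i * W φ + r) % W φ = r :=
  ⟨by rw [mul_comm, Nat.mul_add_div (by omega), Nat.div_eq_of_lt hr, add_zero],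
    by rw [Nat.mul_add_mod', Nat.mod_eq_of_lt hr]⟩

theorem tm_dm {i r : ℕ} (hr : r < Z φ) : (i * Z φ + r) / Z φ = i ∧ (i * Z φ + r) % Z φ = r :=
  ⟨by rw [mul_comm, Nat.mul_add_div (by omega), Nat.div_eq_of_lt hr, add_zero],
    by rw [Nat.mul_add_mod', Nat.mod_eq_of_lt hr]⟩

theorem not_cl {j} (h : (j - 1) % W φ < 2) : ¬ (3 ≤ j ∧ j < 3 + φ.length) := fun h' => by
  rw [Nat.mod_eq_of_lt (by unfold W; omega)] at h
  omega

theorem av_pin {j} (h : (j - 1) % W φ = 0) (τ) : av φ j τ = true ↔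
    (τ + (j - 1) / W φ) % 2 = if (j - 1) / W φ * Z φ < τ then 1 else 0 := by
  have := not_cl φ (j := j) (by omega)
  unfold av
  rw [← Bool.decide_and, decide_eq_false this]
  by_cases e : (j - 1) / W φ * Z φ < τ <;> simp [h, e]

theorem av_sh {j} (h : (j - 1) % W φ = 1) (τ) : av φ j τ = true ↔ (τ + (j - 1) / W φ) % 2 = 0 := by
  have := not_cl φ (j := j) (by omega)
  unfold av
  rw [← Bool.decide_and, decide_eq_false this]
  simp [h]

theorem av_fill {j} (h : 2 ≤ (j - 1) % W φ) (h' : ¬ (3 ≤ j ∧ j < 3 + φ.length)) (τ) :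
    av φ j τ = true := by
  unfold av
  rw [← Bool.decide_and, decide_eq_false h']
  simp [show (j - 1) % W φ ≠ 0 by omega, show (j - 1) % W φ ≠ 1 by omega]

theorem has_iff {C : Cl} {x : ℕ → Bool} : (x C.1.1 = C.1.2 ∨ x C.2.1.1 = C.2.1.2 ∨ x C.2.2.1 = C.2.2.2) ↔
    ∃ i, has C i (x i) = true := by
  obtain ⟨⟨a, b⟩, ⟨c, d⟩, e, f⟩ := C
  simp only [has, Bool.or_eq_true, decide_eq_true_eq, Prod.mk.injEq]
  constructor
  · rintro (h | h | h)
    exacts [⟨a, by simp [h]⟩, ⟨c, by simp [h]⟩, ⟨e, by simp [h]⟩]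
  · rintro ⟨i, (⟨rfl, h⟩ | ⟨rfl, h⟩) | ⟨rfl, h⟩⟩ <;> simp [h]

theorem has_lt {C : Cl} (hC : C ∈ φ) {i s} (h : has C i s = true) : i < V φ := by
  have := List.le_sum_of_mem (List.mem_map_of_mem (f := fun C : Cl => C.1.1 + C.2.1.1 + C.2.2.1) hC)
  simp only [has, Bool.or_eq_true, decide_eq_true_eq] at h
  unfold V
  rcases h with (h | h) | h <;> rw [h] at this <;> simp only at this <;> omega

theorem card_sh : #((Ico 1 (V φ * W φ + 3)).filter fun j => (j - 1) % W φ = 1) = V φ + 1 := by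
  have hW : 4 ≤ W φ := by unfold W; omega
  rw [← card_range (V φ + 1), ← card_image_of_injective (f := fun i => i * W φ + 2) (range _)
    fun i j h => Nat.eq_of_mul_eq_mul_right (show 0 < W φ by omega) (by simpa using h)]
  congr 1
  ext j
  rw [mem_filter, mem_Ico, mem_image]
  simp only [mem_range]
  constructor
  · rintro ⟨h1, h2⟩
    have := Nat.div_add_mod' (j - 1) (W φ)
    exact ⟨(j - 1) / W φ, Nat.lt_succ_of_le
      (Nat.le_of_mul_le_mul_right (c := W φ) (by omega) (by omega)), by omega⟩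
  · rintro ⟨i, hi, rfl⟩
    have := Nat.mul_le_mul_right (W φ) (Nat.le_of_lt_succ hi)
    exact ⟨by omega, (id_dm φ (r := 1) (by omega)).2⟩

theorem sound (h : Walk (V φ * W φ + 3) (V φ * Z φ + 3) fun j τ => av φ j τ = true) : Sat3 φ := by
  obtain ⟨a, b, z, h1, hd⟩ := h.ex
  have hW : W φ = 2 * φ.length + 4 := rfl
  have hZ : Z φ = 2 * W φ + 1 := rfl
  obtain ⟨S, S1, S2, S3⟩ := tight (V := V φ) (z := z) (fun j => (j - 1) % W φ = 1)
    (fun j hj => by
      obtain ⟨k1, k2, k3, k4, k5⟩ := h1 j hj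
      refine ⟨k1, k2, k4, fun e => ⟨(k5 e).1, fun e' => ?_⟩⟩
      have := (av_sh φ e' _).1 k3
      have := (av_sh φ e' _).1 (k5 e).2
      have := (k5 e).1
      omega) hd (card_sh φ) (by rw [Nat.card_Ico, mulZ]; omega)
  have pin : ∀ i ≤ V φ, i * W φ + 1 ∈ Ico 1 (V φ * W φ + 3) ∧ (i * W φ + 1 - 1) % W φ = 0 ∧
      a (i * W φ + 1) = i * Z φ ∧ b (i * W φ + 1) = i * Z φ + 2 ∧ S (i * Z φ) % 2 = i % 2 := by
    intro i hi
    have := Nat.mul_le_mul_right (W φ) hi
    have hj : i * W φ + 1 ∈ Ico 1 (V φ * W φ + 3) := mem_Ico.2 (by omega)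
    obtain ⟨d1, d2⟩ := id_dm φ (i := i) (r := 0) (by omega)
    obtain ⟨k1, k2, k3⟩ := S3 _ hj (by simp)
    obtain ⟨-, -, k4, -, k5⟩ := h1 _ hj
    have k6 := (av_pin φ (j := i * W φ + 1) d2 _).1 k4
    have k7 := (av_pin φ (j := i * W φ + 1) d2 _).1 (k5 k1).2
    rw [show (i * W φ + 1 - 1) / W φ = i from d1] at k6 k7
    have := mulZ φ i
    have e : a (i * W φ + 1) = i * Z φ := by split_ifs at k6 k7 <;> omega
    rw [e] at k2 k3
    exact ⟨hj, d2, e, k2, by omega⟩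
  have step : ∀ i < V φ, S (i * Z φ) < S ((i + 1) * Z φ) := fun i hi => by
    have := S1 (Nat.mul_le_mul_right (Z φ) (Nat.le_succ i))
    have := (pin i hi.le).2.2.2.2
    have := (pin (i + 1) hi).2.2.2.2
    simp only [Nat.succ_eq_add_one] at *
    omega
  have lo : ∀ i ≤ V φ, i ≤ S (i * Z φ) := fun i => by
    induction i with
    | zero => simp
    | succ i ih => exact fun hi => (ih (by omega)).trans_lt (step i hi)
  have up : ∀ i ≤ V φ, S (i * Z φ) ≤ i := fun i hi =>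
    Nat.decreasingInduction (motive := fun i _ => S (i * Z φ) ≤ i)
      (fun k hk h => by have := step k hk; omega) (S2 _) hi
  refine ⟨fun i => decide (S (i * Z φ + (2 * φ.length + 4)) = i), fun C hC =>
    (has_iff (x := fun i => decide (S (i * Z φ + (2 * φ.length + 4)) = i))).2 ?_⟩
  obtain ⟨c, hc, rfl⟩ := List.getElem_of_mem hC
  have hV : 1 ≤ V φ := Nat.le_add_left _ _
  have := Nat.mul_le_mul_right (W φ) hV
  have hj : 3 + c ∈ Ico 1 (V φ * W φ + 3) := mem_Ico.2 (by omega)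
  have hm : (3 + c - 1) % W φ = c + 2 := by rw [Nat.mod_eq_of_lt (by omega)]; omega
  obtain ⟨k1, k2, k3⟩ := S3 _ hj (by omega)
  obtain ⟨-, k0, k4, -, k5⟩ := h1 _ hj
  have k6 := (k5 k1).2
  rw [k2, av_cl φ hc, show a (3 + c) + 2 - 1 = a (3 + c) + 1 from rfl] at k6
  rw [av_cl φ hc] at k4
  have dis : ∀ i ≤ V φ, a (3 + c) + 2 ≤ i * Z φ ∨ i * Z φ + 2 ≤ a (3 + c) := fun i hi => by
    obtain ⟨p1, p2, p3, p4, -⟩ := pin i hi
    have := hd _ hj _ p1 fun e => by rw [← e] at p2; omega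
    omega
  obtain ⟨m1, m2⟩ := dm φ (a (3 + c))
  have m3 := Nat.div_add_mod' (a (3 + c)) (Z φ)
  generalize a (3 + c) / Z φ = i at k4 k6 m2 m3
  generalize a (3 + c) % Z φ = o at k4 k6 m1 m2 m3
  have hi : i < V φ := by
    have := dis _ le_rfl
    exact lt_of_mul_lt_mul_right (a := Z φ) (by omega) (Nat.zero_le _)
  have d1 := dis i hi.le
  have d2 := dis (i + 1) hi
  have e1 := lo i hi.le
  have e2 := up (i + 1) hi
  have e3 := mulZ φ i
  rw [add_mul, one_mul] at d2 e2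
  rcases m2 with m2 | m2
  · omega
  rw [m2.1, m2.2] at k6
  refine ⟨i, ?_⟩
  have u1 := S1 (show i * Z φ ≤ a (3 + c) by omega)
  have u2 := S1 (show a (3 + c) ≤ i * Z φ + Z φ by omega)
  rcases cl_both k4 k6 with e | ⟨e, e'⟩ | ⟨e, e'⟩
  · omega
  · have := S1 (show a (3 + c) ≤ i * Z φ + (2 * φ.length + 4) by omega)
    rwa [decide_eq_false (by omega)]
  · have := S1 (show i * Z φ + (2 * φ.length + 4) ≤ a (3 + c) by omega)
    have := S1 (show i * Z φ ≤ i * Z φ + (2 * φ.length + 4) by omega)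
    rwa [decide_eq_true (by omega)]

theorem complete (h : Sat3 φ) : ∃ a b : ℕ → ℕ,
    (∀ j ∈ Ico 1 (V φ * W φ + 3), a j + 2 ≤ b j ∧ a j < V φ * Z φ + 3 ∧ av φ j (a j) = true ∧
      av φ j (b j - 1) = true) ∧
    ∀ j ∈ Ico 1 (V φ * W φ + 3), ∀ k ∈ Ico 1 (V φ * W φ + 3), j ≠ k → b j ≤ a k ∨ b k ≤ a j := by
  classical
  obtain ⟨x, hx⟩ := h
  have hW : W φ = 2 * φ.length + 4 := rfl
  have hZ : Z φ = 2 * W φ + 1 := rfl
  have : ∀ c, ∃ i r, ∀ hc : c < φ.length, i < V φ ∧ has φ[c] i (x i) = true ∧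
      ((x i = false ∧ r = c + 2) ∨ (x i = true ∧ r = φ.length + c + 3)) := fun c => by
    by_cases hc : c < φ.length
    · obtain ⟨i, hi⟩ := has_iff.1 (hx _ (List.getElem_mem hc))
      refine ⟨i, if x i then φ.length + c + 3 else c + 2, fun _ =>
        ⟨has_lt φ (List.getElem_mem hc) hi, hi, ?_⟩⟩
      cases x i <;> simp
    · exact ⟨0, 0, fun h => absurd h hc⟩
  choose I R hI using this
  let u : ℕ → ℕ := fun c => I c * W φ + R c + 1
  have u0 : ∀ c < φ.length, (u c - 1) / W φ = I c ∧ (u c - 1) % W φ = R c := fun c hc =>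
    id_dm φ (by have := (hI c hc).2.2; omega)
  have u1 : ∀ c < φ.length, ∀ c' < φ.length, u c = u c' → c = c' := fun c hc c' hc' e => by
    have := (u0 c hc).2
    rw [e, (u0 c' hc').2] at this
    have := (hI c hc).2.2
    have := (hI c' hc').2.2
    omega
  have u2 : ∀ c < φ.length, u c < 3 + φ.length → u c = 3 + c := fun c hc e => by
    have := (u0 c hc).2
    rw [Nat.mod_eq_of_lt (by omega)] at this
    have := (hI c hc).2.2
    have : 1 ≤ u c := Nat.le_add_left _ _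
    omega
  have : ∀ j, ∃ s, (∃ c < φ.length, j = 3 + c ∧ s = u c) ∨
      (¬ (3 ≤ j ∧ j < 3 + φ.length) ∧ ((∃ c < φ.length, j = u c ∧ s = 3 + c) ∨
        (s = j ∧ ∀ c < φ.length, j ≠ u c))) := fun j => by
    by_cases h1 : 3 ≤ j ∧ j < 3 + φ.length
    · exact ⟨_, Or.inl ⟨j - 3, by omega, by omega, rfl⟩⟩
    by_cases h2 : ∃ c < φ.length, j = u c
    · obtain ⟨c, h3, h4⟩ := h2
      exact ⟨_, Or.inr ⟨h1, Or.inl ⟨c, h3, h4, rfl⟩⟩⟩
    · exact ⟨j, Or.inr ⟨h1, Or.inr ⟨rfl, fun c hc e => h2 ⟨c, hc, e⟩⟩⟩⟩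
  choose σ hσ using this
  have inj : ∀ j k, σ j = σ k → j = k := fun j k e => by
    rcases hσ j with ⟨c, h1, h2, h3⟩ | ⟨h0, ⟨c, h1, h2, h3⟩ | ⟨h1, h2⟩⟩ <;>
      rcases hσ k with ⟨d, g1, g2, g3⟩ | ⟨g0, ⟨d, g1, g2, g3⟩ | ⟨g1, g2⟩⟩
    · have := u1 c h1 d g1 (by omega); omega
    · have := u2 c h1 (by omega)
      have : c = d := by omega
      subst this; omega
    · exact absurd (by omega) (g2 c h1)
    · have := u2 d g1 (by omega)
      have : c = d := by omega
      subst this; omega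
    · have : c = d := by omega
      subst this; omega
    · omega
    · exact absurd (by omega) (h2 d g1)
    · omega
    · omega
  have hV : 1 ≤ V φ := Nat.le_add_left _ _
  have hVW := Nat.mul_le_mul_right (W φ) hV
  have mem : ∀ j ∈ Ico 1 (V φ * W φ + 3), σ j ∈ Ico 1 (V φ * W φ + 3) := fun j hj => by
    rw [mem_Ico] at hj ⊢
    rcases hσ j with ⟨c, h1, h2, h3⟩ | ⟨h0, ⟨c, h1, h2, h3⟩ | ⟨h1, h2⟩⟩
    · obtain ⟨k1, -, k2⟩ := hI c h1
      have := Nat.mul_le_mul_right (W φ) (show I c + 1 ≤ V φ from k1)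
      rw [add_mul] at this
      simp only [u] at h3
      omega
    · omega
    · omega
  have : ∀ i r, ∃ o l, (r = 0 ∧ o = 0 ∧ l = 2) ∨ (r = 1 ∧ l = 3 ∧ ((x i = true ∧ i < V φ ∧ o = 2 * W φ - 2) ∨
      ((x i = false ∨ V φ ≤ i) ∧ o = 2))) ∨ (2 ≤ r ∧ l = 2 ∧ ((x i = true ∧ o = 2 * r - 2) ∨
      (x i = false ∧ o = 2 * r + 1))) := fun i r => by
    rcases r with _ | _ | r
    · exact ⟨0, 2, by simp⟩
    · by_cases h : x i = true ∧ i < V φ
      · exact ⟨2 * W φ - 2, 3, by simp [h]⟩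
      · exact ⟨2, 3, Or.inr (Or.inl ⟨rfl, rfl, Or.inr ⟨by simpa [or_iff_not_imp_left] using h, rfl⟩⟩)⟩
    · cases x i <;> simp
  choose O L hO using this
  have rng : ∀ v ∈ Ico 1 (V φ * W φ + 3), (v - 1) % W φ < W φ ∧
      ((v - 1) / W φ < V φ ∨ (v - 1) / W φ = V φ ∧ (v - 1) % W φ ≤ 1) := fun v hv => by
    rw [mem_Ico] at hv
    have := Nat.div_add_mod' (v - 1) (W φ)
    refine ⟨Nat.mod_lt _ (by omega), ?_⟩
    have h : (v - 1) / W φ < V φ + 1 := by
      rw [Nat.div_lt_iff_lt_mul (by omega), add_mul]; omega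
    rcases (Nat.le_of_lt_succ h).lt_or_eq with h | h
    · exact Or.inl h
    · rw [h] at this; exact Or.inr ⟨h, by omega⟩
  refine ⟨fun j => (σ j - 1) / W φ * Z φ + O ((σ j - 1) / W φ) ((σ j - 1) % W φ), fun j =>
    (σ j - 1) / W φ * Z φ + O ((σ j - 1) / W φ) ((σ j - 1) % W φ) + L ((σ j - 1) / W φ) ((σ j - 1) % W φ),
    fun j hj => ?_, fun j hj k hk e => ?_⟩
  · beta_reduce
    have h1 := hO ((σ j - 1) / W φ) ((σ j - 1) % W φ)
    obtain ⟨h2, h3⟩ := rng _ (mem j hj)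
    refine ⟨by omega, ?_, ?_⟩
    · rcases h3 with h3 | h3
      · have := Nat.mul_le_mul_right (Z φ) (show _ + 1 ≤ V φ from h3)
        rw [add_mul] at this
        omega
      · rw [h3.1] at h1 ⊢
        omega
    rcases hσ j with ⟨c, k1, rfl, k3⟩ | ⟨k0, ⟨c, k1, k2, k3⟩ | ⟨k1, k2⟩⟩
    · rw [k3, (u0 c k1).1, (u0 c k1).2] at h1 ⊢
      obtain ⟨-, k4, k5 | k5⟩ := hI c k1 <;> rw [k5.1] at k4 h1 <;>
        simp only [Bool.false_eq_true, Bool.true_eq_false, false_and, true_and, false_or, or_false] at h1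
      · rw [show O (I c) (R c) = 2 * c + 5 by omega, show L (I c) (R c) = 2 by omega, av_cl φ k1,
          av_cl φ k1, show I c * Z φ + (2 * c + 5) + 2 - 1 = I c * Z φ + (2 * c + 6) from rfl,
          (tm_dm φ (by omega)).1, (tm_dm φ (by omega)).2, (tm_dm φ (by omega)).1,
          (tm_dm φ (by omega)).2]
        exact cl_neg k1 k4
      · rw [show O (I c) (R c) = 2 * φ.length + 2 * c + 4 by omega, show L (I c) (R c) = 2 by omega,
          av_cl φ k1, av_cl φ k1, show I c * Z φ + (2 * φ.length + 2 * c + 4) + 2 - 1 =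
            I c * Z φ + (2 * φ.length + 2 * c + 5) from rfl,
          (tm_dm φ (by omega)).1, (tm_dm φ (by omega)).2, (tm_dm φ (by omega)).1,
          (tm_dm φ (by omega)).2]
        exact cl_pos k1 k4
    · have : 2 ≤ (j - 1) % W φ := by
        rw [k2, (u0 c k1).2]
        have := (hI c k1).2.2
        omega
      exact ⟨av_fill φ this k0 _, av_fill φ this k0 _⟩
    · rw [k1] at h1 ⊢
      have := mulZ φ ((j - 1) / W φ)
      rcases h1 with h1 | h1 | h1
      · rw [av_pin φ h1.1, av_pin φ h1.1, if_neg (by omega), if_pos (by omega)]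
        omega
      · rw [av_sh φ h1.1, av_sh φ h1.1]
        omega
      · exact ⟨av_fill φ h1.1 k0 _, av_fill φ h1.1 k0 _⟩
  · beta_reduce
    have e' : σ j ≠ σ k := fun h => e (inj j k h)
    have h1 := hO ((σ j - 1) / W φ) ((σ j - 1) % W φ)
    have h2 := hO ((σ k - 1) / W φ) ((σ k - 1) % W φ)
    have h3 := rng _ (mem j hj)
    have h4 := rng _ (mem k hk)
    have h5 := Nat.div_add_mod' (σ j - 1) (W φ)
    have h6 := Nat.div_add_mod' (σ k - 1) (W φ)
    have h7 := (mem_Ico.1 (mem j hj)).1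
    have h8 := (mem_Ico.1 (mem k hk)).1
    generalize (σ j - 1) / W φ = i at *
    generalize (σ k - 1) / W φ = i' at *
    generalize (σ j - 1) % W φ = r at *
    generalize (σ k - 1) % W φ = r' at *
    rcases lt_trichotomy i i' with h | rfl | h
    · have := Nat.mul_le_mul_right (Z φ) (show i + 1 ≤ i' from h)
      rw [add_mul] at this
      clear h2
      omega
    · cases hx : x i <;> rw [hx] at h1 h2 <;>
        simp only [Bool.false_eq_true, Bool.true_eq_false, false_and, true_and, false_or, or_false,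
          true_or] at h1 h2 <;> omega
    · have := Nat.mul_le_mul_right (Z φ) (show i' + 1 ≤ i from h)
      rw [add_mul] at this
      clear h1
      omega

theorem star_nph {Δ : ℕ} (h : 2 ≤ Δ) : NPH (Valid Δ) Cover := by
  refine sat3_nph.reduce red pt_red fun φ _ => ⟨valid_red φ h, fun h => ?_, ?_⟩
  · obtain ⟨a, b, h1, h2⟩ := complete φ h
    obtain ⟨w, w0, w1, w2⟩ := walk_of (ρ := fun j τ => av φ j τ = true) a b h1 h2
    refine ⟨w, w0, fun τ _ => ?_, by simpa [red, mat] using w2⟩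
    rw [cur_red, adj_mat]
    rcases w1 τ with e | ⟨e1, e2, e3⟩ | ⟨e1, e2, e3⟩
    · exact Or.inl e
    · rw [mem_Ico] at e2
      exact Or.inr ⟨by omega, e2.2, Or.inl ⟨e1, e2.1, by simp [e3]⟩⟩
    · rw [mem_Ico] at e2
      exact Or.inr ⟨e2.2, by omega, Or.inr ⟨e1, e2.1, by simp [e3]⟩⟩
  · rintro ⟨w, w0, w1, w2⟩
    refine sound φ ⟨w, w0, fun τ hτ => ?_, by simpa [red, mat] using w2⟩
    have := w1 τ hτ
    rw [cur_red, adj_mat] at this
    simp only [not_le.2 hτ, decide_false, Bool.false_or] at this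
    tauto

end Pool.Agent.Lead.Star
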